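import Mathlib
import Pool.Agent.EDG.StmtsC

/-!
# Squad EDG, row EVI (helper27): the iterates of the quadratic map as polynomials.
-/

set_option autoImplicit false

namespace Pool.Agent.EDG.H27

open Polynomial Pool.Agent.EDG.C

theorem ev_itc (B : Type) [CommRing B] [Algebra ℂ B] (c x : B) (n : ℕ) :
    ev c x (itc ℂ n) = (fc c)^[n] x := by
  induction n with
  | zero => simp [ev, itc]
  | succ n ih =>
    rw [Function.iterate_succ_apply', ← ih]
    change ev c x ((itc ℂ n) ^ 2 + Polynomial.C X) = _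
    rw [map_add, map_pow]
    simp [ev, fc]

theorem itc_monic (n : ℕ) : (itc ℂ n).Monic ∧ (itc ℂ n).natDegree = 2 ^ n := by
  induction n with
  | zero => exact ⟨monic_X, by simp [itc]⟩
  | succ n ih =>
    have h1 : ((itc ℂ n) ^ 2).Monic := ih.1.pow 2
    have h2 : ((itc ℂ n) ^ 2).natDegree = 2 ^ (n + 1) := by
      rw [ih.1.natDegree_pow, ih.2, pow_succ]
      ring
    have h3 : (Polynomial.C (X : ℂ[X])).natDegree < ((itc ℂ n) ^ 2).natDegree := by
      rw [h2, natDegree_C]
      positivity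
    refine ⟨?_, ?_⟩
    · exact h1.add_of_left (degree_lt_degree h3)
    · change ((itc ℂ n) ^ 2 + Polynomial.C X).natDegree = _
      rw [natDegree_add_eq_left_of_natDegree_lt h3, h2]

theorem phi_monic (n : ℕ) (hn : 0 < n) : (phi n).Monic ∧ (phi n).natDegree = 2 ^ n := by
  obtain ⟨h1, h2⟩ := itc_monic n
  have h3 : (X : ℂ[X][X]).natDegree < (itc ℂ n).natDegree := by
    rw [h2, natDegree_X]
    exact Nat.one_lt_two_pow hn.ne'
  exact ⟨h1.sub_of_left (degree_lt_degree h3),
    by rw [phi, natDegree_sub_eq_left_of_natDegree_lt h3, h2]⟩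

theorem phi_dvd_sub (m k : ℕ) : phi m ∣ itc ℂ (m + k) - itc ℂ k := by
  induction k with
  | zero => exact dvd_rfl
  | succ k ih =>
    have e : itc ℂ (m + (k + 1)) - itc ℂ (k + 1) =
        (itc ℂ (m + k) - itc ℂ k) * (itc ℂ (m + k) + itc ℂ k) := by
      change ((itc ℂ (m + k)) ^ 2 + Polynomial.C X) - ((itc ℂ k) ^ 2 + Polynomial.C X) = _
      ring
    rw [e]
    exact Dvd.dvd.mul_right ih _

theorem evi : EviStmt := by
  refine ⟨ev_itc, itc_monic, phi_monic, ?_⟩
  rintro k n ⟨N, rfl⟩
  induction N with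
  | zero =>
    have : phi (k * 0) = 0 := by
      rw [mul_zero]
      exact sub_self _
    rw [this]
    exact dvd_zero _
  | succ N ih =>
    have e : phi (k * (N + 1)) = (itc ℂ (k * N + k) - itc ℂ k) + phi k := by
      rw [phi, phi, mul_add, mul_one]
      ring
    rw [e]
    exact dvd_add (ih.trans (phi_dvd_sub (k * N) k)) dvd_rfl

end Pool.Agent.EDG.H27
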